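import Mathlib
import Pool.Agent.H23.KD.C20o.B0
import Pool.Agent.H23.KD.C20o.B1
import Pool.Agent.H23.KD.C20o.B2
import Pool.Agent.H23.KD.C20o.B3
import Pool.Agent.H23.KD.C20o.B4
import Pool.Agent.H23.KD.Snd2

set_option autoImplicit false
set_option maxRecDepth 100000
set_option linter.all false

namespace Pool.Agent.H23.KD.C20o

open Pool.Agent.H23.KD

variable {w : ℕ → Bool}

theorem O0 (hw : Val w ET IT) : Ok w CT 333 Z0 :=
  Ok.block2 hw B0 L0 (Ok.zero w CT)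
theorem O1 (hw : Val w ET IT) : Ok w CT 650 Z1 :=
  Ok.block2 hw B1 L1 (O0 hw)
theorem O2 (hw : Val w ET IT) : Ok w CT 958 Z2 :=
  Ok.block2 hw B2 L2 (O1 hw)
theorem O3 (hw : Val w ET IT) : Ok w CT 1114 Z3 :=
  Ok.block2 hw B3 L3 (O2 hw)
theorem O4 (hw : Val w ET IT) : Ok w CT 2092 Z4 :=
  Ok.block2 hw B4 L4 (O3 hw)
theorem O5 (hw : Val w ET IT) : Ok w CT 3532 Z5 :=
  Ok.block2 hw B5 L5 (O4 hw)
theorem O6 (hw : Val w ET IT) : Ok w CT 4262 Z6 :=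
  Ok.block2 hw B6 L6 (O5 hw)
theorem O7 (hw : Val w ET IT) : Ok w CT 4701 Z7 :=
  Ok.block2 hw B7 L7 (O6 hw)
theorem O8 (hw : Val w ET IT) : Ok w CT 5027 Z8 :=
  Ok.block2 hw B8 L8 (O7 hw)
theorem O9 (hw : Val w ET IT) : Ok w CT 5762 Z9 :=
  Ok.block2 hw B9 L9 (O8 hw)
theorem O10 (hw : Val w ET IT) : Ok w CT 6184 Z10 :=
  Ok.block2 hw B10 L10 (O9 hw)
theorem O11 (hw : Val w ET IT) : Ok w CT 6713 Z11 :=
  Ok.block2 hw B11 L11 (O10 hw)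
theorem O12 (hw : Val w ET IT) : Ok w CT 7431 Z12 :=
  Ok.block2 hw B12 L12 (O11 hw)
theorem O13 (hw : Val w ET IT) : Ok w CT 8022 Z13 :=
  Ok.block2 hw B13 L13 (O12 hw)
theorem O14 (hw : Val w ET IT) : Ok w CT 8568 Z14 :=
  Ok.block2 hw B14 L14 (O13 hw)
theorem O15 (hw : Val w ET IT) : Ok w CT 9017 Z15 :=
  Ok.block2 hw B15 L15 (O14 hw)
theorem O16 (hw : Val w ET IT) : Ok w CT 9689 Z16 :=
  Ok.block2 hw B16 L16 (O15 hw)
theorem O17 (hw : Val w ET IT) : Ok w CT 10264 Z17 :=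
  Ok.block2 hw B17 L17 (O16 hw)
theorem O18 (hw : Val w ET IT) : Ok w CT 10644 Z18 :=
  Ok.block2 hw B18 L18 (O17 hw)
theorem O19 (hw : Val w ET IT) : Ok w CT 11244 Z19 :=
  Ok.block2 hw B19 L19 (O18 hw)
theorem O20 (hw : Val w ET IT) : Ok w CT 11510 Z20 :=
  Ok.block2 hw B20 L20 (O19 hw)
theorem O21 (hw : Val w ET IT) : Ok w CT 11705 Z21 :=
  Ok.block2 hw B21 L21 (O20 hw)
theorem O22 (hw : Val w ET IT) : Ok w CT 11934 Z22 :=
  Ok.block2 hw B22 L22 (O21 hw)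
theorem O23 (hw : Val w ET IT) : Ok w CT 12410 Z23 :=
  Ok.block2 hw B23 L23 (O22 hw)
theorem O24 (hw : Val w ET IT) : Ok w CT 12837 Z24 :=
  Ok.block2 hw B24 L24 (O23 hw)
theorem O25 (hw : Val w ET IT) : Ok w CT 13268 Z25 :=
  Ok.block2 hw B25 L25 (O24 hw)
theorem O26 (hw : Val w ET IT) : Ok w CT 13871 Z26 :=
  Ok.block2 hw B26 L26 (O25 hw)
theorem O27 (hw : Val w ET IT) : Ok w CT 14486 Z27 :=
  Ok.block2 hw B27 L27 (O26 hw)
theorem O28 (hw : Val w ET IT) : Ok w CT 14803 Z28 :=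
  Ok.block2 hw B28 L28 (O27 hw)
theorem O29 (hw : Val w ET IT) : Ok w CT 15166 Z29 :=
  Ok.block2 hw B29 L29 (O28 hw)
theorem O30 (hw : Val w ET IT) : Ok w CT 15557 Z30 :=
  Ok.block2 hw B30 L30 (O29 hw)
theorem O31 (hw : Val w ET IT) : Ok w CT 15980 Z31 :=
  Ok.block2 hw B31 L31 (O30 hw)
theorem O32 (hw : Val w ET IT) : Ok w CT 16472 Z32 :=
  Ok.block2 hw B32 L32 (O31 hw)
theorem O33 (hw : Val w ET IT) : Ok w CT 16828 Z33 :=
  Ok.block2 hw B33 L33 (O32 hw)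
theorem O34 (hw : Val w ET IT) : Ok w CT 17079 Z34 :=
  Ok.block2 hw B34 L34 (O33 hw)
theorem O35 (hw : Val w ET IT) : Ok w CT 17402 Z35 :=
  Ok.block2 hw B35 L35 (O34 hw)
theorem O36 (hw : Val w ET IT) : Ok w CT 17815 Z36 :=
  Ok.block2 hw B36 L36 (O35 hw)
theorem O37 (hw : Val w ET IT) : Ok w CT 18264 Z37 :=
  Ok.block2 hw B37 L37 (O36 hw)
theorem O38 (hw : Val w ET IT) : Ok w CT 18742 Z38 :=
  Ok.block2 hw B38 L38 (O37 hw)
theorem O39 (hw : Val w ET IT) : Ok w CT 19250 Z39 :=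
  Ok.block2 hw B39 L39 (O38 hw)
theorem O40 (hw : Val w ET IT) : Ok w CT 19659 Z40 :=
  Ok.block2 hw B40 L40 (O39 hw)
theorem O41 (hw : Val w ET IT) : Ok w CT 19907 Z41 :=
  Ok.block2 hw B41 L41 (O40 hw)
theorem O42 (hw : Val w ET IT) : Ok w CT 20311 Z42 :=
  Ok.block2 hw B42 L42 (O41 hw)
theorem O43 (hw : Val w ET IT) : Ok w CT 20666 Z43 :=
  Ok.block2 hw B43 L43 (O42 hw)
theorem O44 (hw : Val w ET IT) : Ok w CT 20948 Z44 :=
  Ok.block2 hw B44 L44 (O43 hw)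
theorem O45 (hw : Val w ET IT) : Ok w CT 21203 Z45 :=
  Ok.block2 hw B45 L45 (O44 hw)
theorem O46 (hw : Val w ET IT) : Ok w CT 21663 Z46 :=
  Ok.block2 hw B46 L46 (O45 hw)
theorem O47 (hw : Val w ET IT) : Ok w CT 22024 Z47 :=
  Ok.block2 hw B47 L47 (O46 hw)
theorem O48 (hw : Val w ET IT) : Ok w CT 22404 Z48 :=
  Ok.block2 hw B48 L48 (O47 hw)
theorem O49 (hw : Val w ET IT) : Ok w CT 22769 Z49 :=
  Ok.block2 hw B49 L49 (O48 hw)
theorem O50 (hw : Val w ET IT) : Ok w CT 23061 Z50 :=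
  Ok.block2 hw B50 L50 (O49 hw)
theorem O51 (hw : Val w ET IT) : Ok w CT 23263 Z51 :=
  Ok.block2 hw B51 L51 (O50 hw)
theorem O52 (hw : Val w ET IT) : Ok w CT 23566 Z52 :=
  Ok.block2 hw B52 L52 (O51 hw)
theorem O53 (hw : Val w ET IT) : Ok w CT 23838 Z53 :=
  Ok.block2 hw B53 L53 (O52 hw)
theorem O54 (hw : Val w ET IT) : Ok w CT 24112 Z54 :=
  Ok.block2 hw B54 L54 (O53 hw)
theorem O55 (hw : Val w ET IT) : Ok w CT 24257 Z55 :=
  Ok.block2 hw B55 L55 (O54 hw)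
theorem O56 (hw : Val w ET IT) : Ok w CT 24767 Z56 :=
  Ok.block2 hw B56 L56 (O55 hw)
theorem O57 (hw : Val w ET IT) : Ok w CT 25053 Z57 :=
  Ok.block2 hw B57 L57 (O56 hw)
theorem O58 (hw : Val w ET IT) : Ok w CT 25357 Z58 :=
  Ok.block2 hw B58 L58 (O57 hw)
theorem O59 (hw : Val w ET IT) : Ok w CT 25596 Z59 :=
  Ok.block2 hw B59 L59 (O58 hw)
theorem O60 (hw : Val w ET IT) : Ok w CT 26001 Z60 :=
  Ok.block2 hw B60 L60 (O59 hw)
theorem O61 (hw : Val w ET IT) : Ok w CT 26360 Z61 :=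
  Ok.block2 hw B61 L61 (O60 hw)
theorem O62 (hw : Val w ET IT) : Ok w CT 26619 Z62 :=
  Ok.block2 hw B62 L62 (O61 hw)
theorem O63 (hw : Val w ET IT) : Ok w CT 26875 Z63 :=
  Ok.block2 hw B63 L63 (O62 hw)
theorem O64 (hw : Val w ET IT) : Ok w CT 27224 Z64 :=
  Ok.block2 hw B64 L64 (O63 hw)
theorem O65 (hw : Val w ET IT) : Ok w CT 27497 Z65 :=
  Ok.block2 hw B65 L65 (O64 hw)
theorem O66 (hw : Val w ET IT) : Ok w CT 27770 Z66 :=
  Ok.block2 hw B66 L66 (O65 hw)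
theorem O67 (hw : Val w ET IT) : Ok w CT 28021 Z67 :=
  Ok.block2 hw B67 L67 (O66 hw)
theorem O68 (hw : Val w ET IT) : Ok w CT 28300 Z68 :=
  Ok.block2 hw B68 L68 (O67 hw)
theorem O69 (hw : Val w ET IT) : Ok w CT 28558 Z69 :=
  Ok.block2 hw B69 L69 (O68 hw)
theorem O70 (hw : Val w ET IT) : Ok w CT 28755 Z70 :=
  Ok.block2 hw B70 L70 (O69 hw)
theorem O71 (hw : Val w ET IT) : Ok w CT 28961 Z71 :=
  Ok.block2 hw B71 L71 (O70 hw)
theorem O72 (hw : Val w ET IT) : Ok w CT 29162 Z72 :=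
  Ok.block2 hw B72 L72 (O71 hw)
theorem O73 (hw : Val w ET IT) : Ok w CT 29427 Z73 :=
  Ok.block2 hw B73 L73 (O72 hw)
theorem O74 (hw : Val w ET IT) : Ok w CT 29701 Z74 :=
  Ok.block2 hw B74 L74 (O73 hw)
theorem O75 (hw : Val w ET IT) : Ok w CT 30077 Z75 :=
  Ok.block2 hw B75 L75 (O74 hw)
theorem O76 (hw : Val w ET IT) : Ok w CT 30295 Z76 :=
  Ok.block2 hw B76 L76 (O75 hw)
theorem O77 (hw : Val w ET IT) : Ok w CT 30485 Z77 :=
  Ok.block2 hw B77 L77 (O76 hw)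
theorem O78 (hw : Val w ET IT) : Ok w CT 30675 Z78 :=
  Ok.block2 hw B78 L78 (O77 hw)
theorem O79 (hw : Val w ET IT) : Ok w CT 31364 Z79 :=
  Ok.block2 hw B79 L79 (O78 hw)
theorem O80 (hw : Val w ET IT) : Ok w CT 31571 Z80 :=
  Ok.block2 hw B80 L80 (O79 hw)
theorem O81 (hw : Val w ET IT) : Ok w CT 31744 Z81 :=
  Ok.block2 hw B81 L81 (O80 hw)
theorem O82 (hw : Val w ET IT) : Ok w CT 31937 Z82 :=
  Ok.block2 hw B82 L82 (O81 hw)
theorem O83 (hw : Val w ET IT) : Ok w CT 32117 Z83 :=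
  Ok.block2 hw B83 L83 (O82 hw)
theorem O84 (hw : Val w ET IT) : Ok w CT 32316 Z84 :=
  Ok.block2 hw B84 L84 (O83 hw)
theorem O85 (hw : Val w ET IT) : Ok w CT 32416 Z85 :=
  Ok.block2 hw B85 L85 (O84 hw)

theorem last_empty : Nat.land (get8 CT 32415) 4095 = 0 := by decide +kernel

/-- there is no valuation -/
theorem no_val (hw : Val w ET IT) : False :=
  Ok.false (O85 hw) (by norm_num : 32415 < 32416) last_empty

end Pool.Agent.H23.KD.C20o
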